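import Mathlib

set_option autoImplicit false

open MeasureTheory ProbabilityTheory Filter Topology
open scoped ENNReal NNReal unitInterval

universe u v w

namespace Pool.Agent.LPP

/-- Lebesgue measure on the unit interval, as a measure on the line. -/
noncomputable abbrev mu01 : Measure ℝ := volume.restrict (Set.Icc (0 : ℝ) 1)

/-- The Lebesgue-Bochner space of integrable functions on the unit interval. -/
abbrev L1I (X : Type u) [NormedAddCommGroup X] : Type u := Lp X 1 mu01

/-- `A` is isomorphic to a subspace of `B`: a bounded linear map that is bounded below. -/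
def EmbedsIn (A : Type u) (B : Type v) [NormedAddCommGroup A] [NormedSpace ℝ A]
    [NormedAddCommGroup B] [NormedSpace ℝ B] : Prop :=
  ∃ T : A →L[ℝ] B, ∃ c : ℝ, 0 < c ∧ ∀ a, c * ‖a‖ ≤ ‖T a‖

/-- independent uniform variables on the unit interval -/
structure IidU (U : ℕ → ℝ → ℝ) : Prop where
  meas : ∀ n, Measurable (U n)
  indep : iIndepFun U mu01
  law : ∀ n, mu01.map (U n) = mu01

/-- Pareto function -/
noncomputable def par (q u : ℝ) : ℝ := if 0 < u then u ^ (-(1 / q)) else 1

end Pool.Agent.LPP
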