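import Pool.Agent.Helper547.LP.Defs

set_option autoImplicit false

open MeasureTheory ProbabilityTheory Filter Topology
open scoped ENNReal NNReal unitInterval

universe u v w

namespace Pool.Agent.LPP

theorem prob01 : IsProbabilityMeasure mu01 := ⟨by simp [mu01]⟩

theorem exists_iid : ∃ U : ℕ → ℝ → ℝ, IidU U := by
  have : IsProbabilityMeasure mu01 := prob01
  obtain ⟨φ, hφm, hφ⟩ := Measure.exists_measurable_map_eq
    (Measure.infinitePi (fun _ : ℕ => mu01))
  let pr : ℝ → I := Set.projIcc (0 : ℝ) 1 zero_le_one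
  have hprm : Measurable pr := continuous_projIcc.measurable
  have hpr : mu01.map pr = (volume : Measure I) := by
    have h1 := unitInterval.measurePreserving_coe.map_eq
    have h2 : mu01 = (volume : Measure I).map (fun x : I => (x : ℝ)) := h1.symm
    rw [h2, Measure.map_map hprm measurable_subtype_coe]
    have : pr ∘ (fun x : I => (x : ℝ)) = id := by
      funext x
      exact Set.projIcc_val zero_le_one x
    rw [this, Measure.map_id]
  have hmap : mu01.map (fun t => φ (pr t)) = Measure.infinitePi (fun _ : ℕ => mu01) := by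
    rw [← hφ, ← hpr, Measure.map_map hφm hprm]
    rfl
  have hm : ∀ n, Measurable (fun t => φ (pr t) n) := fun n =>
    (measurable_pi_apply n).comp (hφm.comp hprm)
  have hlaw : ∀ n, mu01.map (fun t => φ (pr t) n) = mu01 := by
    intro n
    have hc : Measurable (fun t => φ (pr t)) := hφm.comp hprm
    have h3 : mu01.map (fun t => φ (pr t) n) = (mu01.map (fun t => φ (pr t))).map (fun ω => ω n) := by
      rw [Measure.map_map (measurable_pi_apply n) hc]
      rfl
    rw [h3, hmap, Measure.infinitePi_map_eval]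
  refine ⟨fun n t => φ (pr t) n, ⟨hm, ?_, hlaw⟩⟩
  rw [iIndepFun_iff_map_fun_eq_infinitePi_map hm]
  simp_rw [hlaw]
  exact hmap

theorem emb_comp {A : Type u} {B : Type v} {D : Type w} [NormedAddCommGroup A] [NormedSpace ℝ A]
    [NormedAddCommGroup B] [NormedSpace ℝ B] [NormedAddCommGroup D] [NormedSpace ℝ D]
    (h1 : EmbedsIn A B) (h2 : EmbedsIn B D) : EmbedsIn A D := by
  obtain ⟨T, c, hc, hT⟩ := h1
  obtain ⟨S, d, hd, hS⟩ := h2
  refine ⟨S.comp T, d * c, by positivity, fun a => ?_⟩
  calc d * c * ‖a‖ = d * (c * ‖a‖) := by ring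
    _ ≤ d * ‖T a‖ := by gcongr; exact hT a
    _ ≤ ‖S (T a)‖ := hS _

end Pool.Agent.LPP
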