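import Pool.Agent.Helper547.LP.Defs
import Pool.Agent.Helper547.LP.P0

set_option autoImplicit false

open MeasureTheory ProbabilityTheory Filter Topology
open scoped ENNReal NNReal unitInterval

universe u v w

namespace Pool.Agent.LPP



theorem const_emb (X : Type u) [NormedAddCommGroup X] [NormedSpace ℝ X] :
    EmbedsIn X (L1I X) := by
  have hp : IsProbabilityMeasure mu01 := prob01
  refine ⟨Lp.constL 1 mu01 ℝ, 1, one_pos, ?_⟩
  intro a
  have h1 : ‖Lp.const 1 mu01 a‖ = ‖a‖ := by
    refine (Lp.norm_const (μ := mu01) 1 a one_ne_zero).trans ?_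
    simp
  have h2 : (Lp.constL 1 mu01 ℝ : X →L[ℝ] L1I X) a = Lp.const 1 mu01 a := rfl
  rw [h2, h1, one_mul]

end Pool.Agent.LPP
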