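import Pool.Agent.Helper547.LP.Defs
import Pool.Agent.Helper547.LP.P0

set_option autoImplicit false

open MeasureTheory ProbabilityTheory Filter Topology
open scoped ENNReal NNReal unitInterval

universe u v w

namespace Pool.Agent.LPP



theorem fub_par (q : ℝ) : Measurable (par q) := by
  unfold par
  refine Measurable.ite measurableSet_Ioi ?_ measurable_const
  exact measurable_id.pow_const _

theorem fub_inner {X : Type u} [NormedAddCommGroup X] [NormedSpace ℝ X]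
    (F : Finset ℕ) (c : ℕ → ℝ) (z : ℕ → L1I X) :
    ∫⁻ t, ‖∑ n ∈ F, c n • (z n : ℝ → X) t‖ₑ ∂mu01 = ‖∑ n ∈ F, c n • z n‖ₑ := by
  rw [Lp.enorm_def, eLpNorm_one_eq_lintegral_enorm]
  refine lintegral_congr_ae ?_
  have h1 := Lp.coeFn_finsetSum F (fun n => c n • z n)
  have h2 : ∀ᵐ t ∂mu01, ∀ n ∈ F, (c n • z n : L1I X) t = c n • (z n : ℝ → X) t := by
    rw [Filter.eventually_all_finset]
    intro n _
    exact Lp.coeFn_smul (c n) (z n)
  filter_upwards [h1, h2] with t ht1 ht2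
  rw [ht1]
  congr 1
  rw [Finset.sum_apply]
  exact Finset.sum_congr rfl fun n hn => (ht2 n hn).symm

theorem fub {X : Type u} [NormedAddCommGroup X] [NormedSpace ℝ X]
    (U : ℕ → ℝ → ℝ) (hU : IidU U) (q : ℝ) (F : Finset ℕ) (z : ℕ → L1I X) :
    ∫⁻ ω, ‖∑ n ∈ F, par q (U (n + 1) ω) • (z n : ℝ → X) (U 0 ω)‖ₑ ∂mu01 =
      ∫⁻ ω, ‖∑ n ∈ F, par q (U (n + 1) ω) • z n‖ₑ ∂mu01 := by
  classical
  have hprob := prob01
  obtain ⟨V, hV⟩ : ∃ V : ℝ → (F → ℝ), V = fun (ω : ℝ) (n : F) => U ((n : ℕ) + 1) ω := ⟨_, rfl⟩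
  have hVm : Measurable V := by
    rw [hV]
    exact measurable_pi_lambda _ fun n => hU.meas _
  have hind : IndepFun (U 0) V mu01 := by
    have h1 := hU.indep.indepFun_finset {0} (F.image (fun n => n + 1)) (by
      rw [Finset.disjoint_singleton_left]
      intro h
      obtain ⟨n, -, hn⟩ := Finset.mem_image.1 h
      omega) hU.meas
    have m1 : Measurable (fun g : (({0} : Finset ℕ) → ℝ) => g ⟨0, Finset.mem_singleton_self 0⟩) :=
      measurable_pi_apply (⟨0, Finset.mem_singleton_self 0⟩ : ({0} : Finset ℕ))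
    have m2 : Measurable (fun g : ((F.image (fun n => n + 1) : Finset ℕ) → ℝ) => fun n : F =>
        g ⟨(n : ℕ) + 1, Finset.mem_image_of_mem _ n.2⟩) :=
      measurable_pi_lambda _ fun n => measurable_pi_apply
        (⟨(n : ℕ) + 1, Finset.mem_image_of_mem _ n.2⟩ : (F.image (fun n => n + 1) : Finset ℕ))
    have h2 := h1.comp m1 m2
    rw [hV]
    exact h2
  have hmap : mu01.map (fun ω => (U 0 ω, V ω)) = mu01.prod (mu01.map V) := by
    rw [(indepFun_iff_map_prod_eq_prod_map_map (hU.meas 0).aemeasurable hVm.aemeasurable).1 hind,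
      hU.law 0]
  obtain ⟨G, hG⟩ : ∃ G : ℝ × (F → ℝ) → ℝ≥0∞, G = fun p =>
      ‖∑ n : F, par q (p.2 n) • (z n : ℝ → X) p.1‖ₑ := ⟨_, rfl⟩
  have hGm : Measurable G := by
    rw [hG]
    refine StronglyMeasurable.enorm ?_
    refine Finset.stronglyMeasurable_fun_sum _ fun n _ => ?_
    refine StronglyMeasurable.smul ?_ ?_
    · exact ((fub_par q).comp ((measurable_pi_apply n).comp measurable_snd)).stronglyMeasurable
    · exact (Lp.stronglyMeasurable (z n)).comp_measurable measurable_fst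
  have hL : ∫⁻ ω, ‖∑ n ∈ F, par q (U (n + 1) ω) • (z n : ℝ → X) (U 0 ω)‖ₑ ∂mu01 =
      ∫⁻ ω, G (U 0 ω, V ω) ∂mu01 := by
    refine lintegral_congr fun ω => ?_
    rw [hG, hV]
    show _ = ‖∑ n : F, par q (U ((n : ℕ) + 1) ω) • (z n : ℝ → X) (U 0 ω)‖ₑ
    rw [← Finset.sum_coe_sort F (fun n => par q (U (n + 1) ω) • (z n : ℝ → X) (U 0 ω))]
  rw [hL, ← lintegral_map hGm ((hU.meas 0).prodMk hVm), hmap, lintegral_prod_symm' _ hGm,
    lintegral_map hGm.lintegral_prod_left' hVm]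
  refine lintegral_congr fun ω => ?_
  rw [← fub_inner F (fun n => par q (U (n + 1) ω)) z]
  refine lintegral_congr fun t => ?_
  rw [hG, hV]
  show ‖∑ n : F, par q (U ((n : ℕ) + 1) ω) • (z n : ℝ → X) t‖ₑ = _
  rw [← Finset.sum_coe_sort F (fun n => par q (U (n + 1) ω) • (z n : ℝ → X) t)]

end Pool.Agent.LPP
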