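import Pool.Agent.Helper547.LP.Defs
import Pool.Agent.Helper547.LP.P0

set_option autoImplicit false

open MeasureTheory ProbabilityTheory Filter Topology
open scoped ENNReal NNReal unitInterval

universe u v w

namespace Pool.Agent.LPP



theorem lower_ioc (p : ℝ) (h0 : 0 ≤ p) (h1 : p ≤ 1) : mu01 (Set.Ioc 0 p)ᶜ = ENNReal.ofReal (1 - p) := by
  have hp : IsProbabilityMeasure mu01 := prob01
  rw [measure_compl measurableSet_Ioc (measure_ne_top _ _), measure_univ]
  have h : mu01 (Set.Ioc 0 p) = ENNReal.ofReal p := by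
    rw [mu01, Measure.restrict_apply measurableSet_Ioc]
    have e : Set.Ioc (0:ℝ) p ∩ Set.Icc 0 1 = Set.Ioc 0 p := by
      apply Set.inter_eq_left.2
      intro x hx
      exact ⟨hx.1.le, hx.2.trans h1⟩
    rw [e, Real.volume_Ioc, sub_zero]
  rw [h, ENNReal.ofReal_sub _ h0, ENNReal.ofReal_one]

theorem lower_half (U : ℕ → ℝ → ℝ) (hU : IidU U) (F : Finset ℕ) (p : ℕ → ℝ)
    (h0 : ∀ n ∈ F, 0 ≤ p n) (h1 : ∀ n ∈ F, p n ≤ 1) (hs : ∑ n ∈ F, p n = 1) :
    ENNReal.ofReal (1/2) ≤ mu01 (⋃ n ∈ F, U (n+1) ⁻¹' (Set.Ioc 0 (p n))) := by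
  have hp : IsProbabilityMeasure mu01 := prob01
  have hind : iIndepFun (fun n => U (n+1)) mu01 :=
    hU.indep.precomp (g := fun n : ℕ => n + 1) (fun a b h => by simpa using h)
  have hE : MeasurableSet (⋃ n ∈ F, U (n+1) ⁻¹' (Set.Ioc 0 (p n))) := by
    refine Finset.measurableSet_biUnion F (fun n _ => ?_)
    exact hU.meas (n+1) measurableSet_Ioc
  have hc : mu01 (⋃ n ∈ F, U (n+1) ⁻¹' (Set.Ioc 0 (p n)))ᶜ ≤ ENNReal.ofReal (1/2) := by
    have e1 : (⋃ n ∈ F, U (n+1) ⁻¹' (Set.Ioc 0 (p n)))ᶜ =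
        ⋂ n ∈ F, (fun n => U (n+1)) n ⁻¹' (Set.Ioc 0 (p n))ᶜ := by
      simp only [Set.compl_iUnion, Set.preimage_compl]
    rw [e1, hind.measure_inter_preimage_eq_mul F (sets := fun n => (Set.Ioc 0 (p n))ᶜ)
      (fun n _ => measurableSet_Ioc.compl)]
    have e2 : ∀ n ∈ F, mu01 ((fun n => U (n+1)) n ⁻¹' (Set.Ioc 0 (p n))ᶜ) = ENNReal.ofReal (1 - p n) := by
      intro n hn
      rw [← Measure.map_apply (hU.meas (n+1)) measurableSet_Ioc.compl, hU.law (n+1)]
      exact lower_ioc (p n) (h0 n hn) (h1 n hn)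
    rw [Finset.prod_congr rfl e2, ← ENNReal.ofReal_prod_of_nonneg (fun n hn => by
      have := h1 n hn
      linarith)]
    apply ENNReal.ofReal_le_ofReal
    calc ∏ n ∈ F, (1 - p n) ≤ ∏ n ∈ F, Real.exp (- p n) := by
          apply Finset.prod_le_prod
          · intro n hn
            have := h1 n hn
            linarith
          · intro n _
            have := Real.add_one_le_exp (- p n)
            linarith
      _ = Real.exp (-1) := by
          rw [← Real.exp_sum, Finset.sum_neg_distrib, hs]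
      _ ≤ 1 / 2 := by
          rw [Real.exp_neg, one_div]
          apply inv_anti₀ (by norm_num)
          have := Real.add_one_le_exp (1:ℝ)
          linarith
  have h2 := measure_add_measure_compl (μ := mu01) hE
  rw [measure_univ] at h2
  have h3 : ENNReal.ofReal (1/2) + ENNReal.ofReal (1/2) = 1 := by
    rw [← ENNReal.ofReal_add (by norm_num) (by norm_num)]
    norm_num
  by_contra hcon
  push Not at hcon
  have h4 : mu01 (⋃ n ∈ F, U (n+1) ⁻¹' (Set.Ioc 0 (p n))) +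
      mu01 (⋃ n ∈ F, U (n+1) ⁻¹' (Set.Ioc 0 (p n)))ᶜ < ENNReal.ofReal (1/2) + ENNReal.ofReal (1/2) :=
    ENNReal.add_lt_add_of_lt_of_le (by
      exact ne_of_lt (lt_of_le_of_lt hc ENNReal.ofReal_lt_top)) hcon hc
  rw [h2, h3] at h4
  exact lt_irrefl _ h4

theorem lower (U : ℕ → ℝ → ℝ) (hU : IidU U) (q : ℝ) (hq : 1 < q) (F : Finset ℕ)
    (a : ℕ → ℝ) (ha : ∀ n, 0 ≤ a n) (Φ : ℝ → ℝ≥0∞)
    (hΦ : ∀ n ∈ F, ∀ ω, ENNReal.ofReal (a n * par q (U (n + 1) ω)) ≤ Φ ω) :
    ENNReal.ofReal ((1 / 2) * (∑ n ∈ F, (a n) ^ q) ^ (1 / q)) ≤ ∫⁻ ω, Φ ω ∂mu01 := by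
  have hq0 : 0 < q := by linarith
  have hnn : ∀ n ∈ F, 0 ≤ (a n) ^ q := fun n _ => Real.rpow_nonneg (ha n) q
  rcases eq_or_lt_of_le (Finset.sum_nonneg hnn) with h | hS
  · rw [← h, Real.zero_rpow (by positivity), mul_zero, ENNReal.ofReal_zero]
    exact zero_le
  · obtain ⟨S, hSd⟩ : ∃ S, S = ∑ n ∈ F, (a n) ^ q := ⟨_, rfl⟩
    rw [← hSd] at hS ⊢
    have hp0 : ∀ n ∈ F, 0 ≤ (a n) ^ q / S := fun n hn => div_nonneg (hnn n hn) hS.le
    have hps : ∑ n ∈ F, (a n) ^ q / S = 1 := by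
      rw [← Finset.sum_div, ← hSd, div_self hS.ne']
    have hp1 : ∀ n ∈ F, (a n) ^ q / S ≤ 1 := by
      intro n hn
      rw [← hps]
      exact Finset.single_le_sum (f := fun n => (a n) ^ q / S) hp0 hn
    have hhalf := lower_half U hU F (fun n => (a n) ^ q / S) hp0 hp1 hps
    have hE : MeasurableSet (⋃ n ∈ F, U (n+1) ⁻¹' (Set.Ioc 0 ((a n) ^ q / S))) := by
      refine Finset.measurableSet_biUnion F (fun n _ => ?_)
      exact hU.meas (n+1) measurableSet_Ioc
    have hle : ∀ ω, (⋃ n ∈ F, U (n+1) ⁻¹' (Set.Ioc 0 ((a n) ^ q / S))).indicator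
        (fun _ => ENNReal.ofReal (S ^ (1 / q))) ω ≤ Φ ω := by
      intro ω
      by_cases hω : ω ∈ ⋃ n ∈ F, U (n+1) ⁻¹' (Set.Ioc 0 ((a n) ^ q / S))
      · rw [Set.indicator_of_mem hω]
        simp only [Set.mem_iUnion] at hω
        obtain ⟨n, hn, hω'⟩ := hω
        have hu0 : 0 < U (n+1) ω := hω'.1
        have hu1 : U (n+1) ω ≤ (a n) ^ q / S := hω'.2
        refine le_trans (ENNReal.ofReal_le_ofReal ?_) (hΦ n hn ω)
        rw [par, if_pos hu0]
        have hap : 0 < (a n) ^ q := by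
          have := lt_of_lt_of_le hu0 hu1
          by_contra hc
          push Not at hc
          have h2 : (a n) ^ q / S ≤ 0 := div_nonpos_of_nonpos_of_nonneg hc hS.le
          linarith
        have han : 0 < a n := by
          rcases (ha n).eq_or_lt with h | h
          · rw [← h, Real.zero_rpow hq0.ne'] at hap
            exact absurd hap (lt_irrefl _)
          · exact h
        have h1 : ((a n) ^ q / S) ^ (-(1 / q)) ≤ (U (n+1) ω) ^ (-(1 / q)) := by
          apply Real.rpow_le_rpow_of_nonpos hu0 hu1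
          have : 0 < 1 / q := by positivity
          linarith
        have h2 : a n * ((a n) ^ q / S) ^ (-(1 / q)) = S ^ (1 / q) := by
          rw [Real.rpow_neg (hp0 n hn), Real.div_rpow hap.le hS.le, ← Real.rpow_mul (ha n),
            mul_one_div_cancel hq0.ne', Real.rpow_one, inv_div]
          field_simp
        calc S ^ (1 / q) = a n * ((a n) ^ q / S) ^ (-(1 / q)) := h2.symm
          _ ≤ a n * (U (n+1) ω) ^ (-(1 / q)) := mul_le_mul_of_nonneg_left h1 (ha n)
      · rw [Set.indicator_of_notMem hω]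
        exact zero_le
    refine le_trans ?_ (lintegral_mono hle)
    rw [lintegral_indicator hE, lintegral_const, Measure.restrict_apply MeasurableSet.univ,
      Set.univ_inter, ENNReal.ofReal_mul (by norm_num), mul_comm]
    exact mul_le_mul' le_rfl hhalf

end Pool.Agent.LPP
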