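import Pool.Agent.Helper547.LP.Defs

set_option autoImplicit false

open MeasureTheory ProbabilityTheory Filter Topology
open scoped ENNReal NNReal unitInterval

universe u v w

namespace Pool.Agent.LPP



theorem int_big (q a : ℝ) (hq : 1 < q) (h0 : 0 ≤ a) (h1 : a ≤ 1) :
    ∫⁻ u, ENNReal.ofReal (if a * par q u ≤ 1 then 0 else a * par q u) ∂mu01 ≤
      ENNReal.ofReal (q / (q - 1) * a ^ q) := by
  rcases h0.eq_or_lt with h00 | ha
  · subst h00
    simp
  have hq0 : 0 < q := by linarith
  have hqi : 0 < 1 / q := by positivity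
  have hqi1 : 1 / q < 1 := by
    rw [div_lt_one hq0]
    exact hq
  obtain ⟨b, hb⟩ : ∃ b : ℝ, b = a ^ q := ⟨_, rfl⟩
  have hb0 : 0 < b := by rw [hb]; positivity
  have hr : -1 < -(1 / q) := by linarith
  have hstep : ∫⁻ u, ENNReal.ofReal (if a * par q u ≤ 1 then 0 else a * par q u) ∂mu01 ≤
      ∫⁻ u in Set.Ioc 0 b, ENNReal.ofReal (a * u ^ (-(1 / q))) := by
    rw [← lintegral_indicator measurableSet_Icc, ← lintegral_indicator measurableSet_Ioc]
    apply lintegral_mono
    intro u
    by_cases hu : u ∈ Set.Icc (0:ℝ) 1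
    · rw [Set.indicator_of_mem hu]
      by_cases hc : a * par q u ≤ 1
      · simp [hc]
      · rw [if_neg hc]
        have hu0 : 0 < u := by
          rcases hu.1.eq_or_lt with h | h
          · exfalso
            apply hc
            rw [← h]
            simp only [par, lt_irrefl, if_false, mul_one]
            exact h1
          · exact h
        have hpar : par q u = u ^ (-(1 / q)) := by
          unfold par
          rw [if_pos hu0]
        rw [hpar] at hc ⊢
        push Not at hc
        have hlt : u ^ (1 / q) < a := by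
          rw [Real.rpow_neg hu0.le] at hc
          have h2 : 0 < u ^ (1 / q) := Real.rpow_pos_of_pos hu0 _
          rw [← div_eq_mul_inv, lt_div_iff₀ h2] at hc
          linarith
        have hub : u ≤ b := by
          have h3 : (u ^ (1 / q)) ^ q ≤ a ^ q :=
            Real.rpow_le_rpow (Real.rpow_nonneg hu0.le _) hlt.le hq0.le
          rw [← Real.rpow_mul hu0.le, one_div_mul_cancel hq0.ne', Real.rpow_one] at h3
          rw [hb]
          exact h3
        rw [Set.indicator_of_mem (show u ∈ Set.Ioc 0 b from ⟨hu0, hub⟩)]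
    · rw [Set.indicator_of_notMem hu]
      exact zero_le
  refine hstep.trans ?_
  have hint : IntegrableOn (fun u : ℝ => u ^ (-(1 / q))) (Set.Ioc 0 b) := by
    have := intervalIntegral.intervalIntegrable_rpow' (a := 0) (b := b) hr
    exact (intervalIntegrable_iff_integrableOn_Ioc_of_le hb0.le).mp this
  have hint2 : Integrable (fun u : ℝ => a * u ^ (-(1 / q))) (volume.restrict (Set.Ioc 0 b)) :=
    hint.const_mul a
  have hnn : 0 ≤ᵐ[volume.restrict (Set.Ioc 0 b)] (fun u : ℝ => a * u ^ (-(1 / q))) := by
    refine (ae_restrict_iff' measurableSet_Ioc).mpr (Eventually.of_forall ?_)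
    intro u hu
    have hu0 : 0 < u := hu.1
    show 0 ≤ a * u ^ (-(1 / q))
    positivity
  rw [← ofReal_integral_eq_lintegral_ofReal hint2 hnn]
  apply ENNReal.ofReal_le_ofReal
  rw [integral_const_mul, ← intervalIntegral.integral_of_le hb0.le, integral_rpow (Or.inl hr)]
  have hne : -(1 / q) + 1 ≠ 0 := by linarith
  rw [Real.zero_rpow hne, sub_zero]
  have hbp : b ^ (-(1 / q) + 1) = a ^ (q - 1) := by
    rw [hb, ← Real.rpow_mul ha.le]
    congr 1
    field_simp
    ring
  rw [hbp]
  have haq : a ^ q = a * a ^ (q - 1) := by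
    have h4 : a ^ q = a ^ (1 + (q - 1)) := by
      congr 1
      ring
    rw [h4, Real.rpow_add ha, Real.rpow_one]
  rw [haq]
  have hq1 : q - 1 ≠ 0 := by linarith
  apply le_of_eq
  have h5 : -(1 / q) + 1 = (q - 1) / q := by
    field_simp
    ring
  rw [h5]
  field_simp

end Pool.Agent.LPP
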