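import Pool.Agent.Helper547.LP.Defs
import Pool.Agent.Helper547.LP.P0
import Pool.Agent.Helper547.LP.P_int_big
import Pool.Agent.Helper547.LP.P_fub

set_option autoImplicit false

open MeasureTheory ProbabilityTheory Filter Topology
open scoped ENNReal NNReal unitInterval

universe u v w

namespace Pool.Agent.LPP



theorem ten_par_meas (q : ℝ) : Measurable (par q) := by
  unfold par
  exact Measurable.ite measurableSet_Ioi (measurable_id.pow_const _) measurable_const

theorem ten_par_nonneg (q u : ℝ) : 0 ≤ par q u := by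
  unfold par
  split_ifs with h
  · exact Real.rpow_nonneg h.le _
  · exact zero_le_one

theorem ten_par_fin (q : ℝ) (hq : 1 < q) : ∫⁻ u, ‖par q u‖ₑ ∂mu01 ≠ ⊤ := by
  have := prob01
  have h1 : ∀ u, ‖par q u‖ₑ ≤ 1 + ENNReal.ofReal (if 1 * par q u ≤ 1 then 0 else 1 * par q u) := by
    intro u
    rw [Real.enorm_of_nonneg (ten_par_nonneg q u), one_mul]
    split_ifs with h
    · rw [ENNReal.ofReal_zero, add_zero, ← ENNReal.ofReal_one]
      exact ENNReal.ofReal_le_ofReal h
    · exact le_add_self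
  have h2 := int_big q 1 hq zero_le_one le_rfl
  refine ne_top_of_le_ne_top ?_ (lintegral_mono h1)
  rw [lintegral_add_left measurable_const, lintegral_one]
  exact ENNReal.add_ne_top.2 ⟨measure_ne_top _ _, ne_top_of_le_ne_top ENNReal.ofReal_ne_top h2⟩

theorem ten_memLp {X : Type u} [NormedAddCommGroup X] [NormedSpace ℝ X]
    (U : ℕ → ℝ → ℝ) (hU : IidU U) (q : ℝ) (hq : 1 < q) (n : ℕ) (g : L1I X) :
    MemLp (fun ω => par q (U (n + 1) ω) • (g : ℝ → X) (U 0 ω)) 1 mu01 := by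
  rw [memLp_one_iff_integrable]
  refine ⟨?_, ?_⟩
  · refine StronglyMeasurable.aestronglyMeasurable ?_
    refine StronglyMeasurable.smul ?_ ?_
    · exact ((ten_par_meas q).comp (hU.meas (n + 1))).stronglyMeasurable
    · exact (Lp.stronglyMeasurable g).comp_measurable (hU.meas 0)
  · have h1 := fub U hU q {n} (fun _ => g)
    simp only [Finset.sum_singleton] at h1
    rw [hasFiniteIntegral_iff_enorm, h1]
    have h2 : ∀ ω, ‖par q (U (n + 1) ω) • g‖ₑ = ‖par q (U (n + 1) ω)‖ₑ * ‖g‖ₑ := by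
      intro ω
      exact enorm_smul _ _
    simp only [h2]
    have hm : Measurable (fun ω => ‖par q (U (n + 1) ω)‖ₑ) :=
      ((ten_par_meas q).comp (hU.meas (n + 1))).enorm
    rw [lintegral_mul_const _ hm]
    refine ENNReal.mul_lt_top ?_ enorm_lt_top
    have h3 : ∫⁻ ω, ‖par q (U (n + 1) ω)‖ₑ ∂mu01 = ∫⁻ u, ‖par q u‖ₑ ∂mu01 := by
      conv_rhs => rw [← hU.law (n + 1)]
      rw [lintegral_map (ten_par_meas q).enorm (hU.meas (n + 1))]
    rw [h3]
    exact lt_top_iff_ne_top.2 (ten_par_fin q hq)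

theorem ten {X : Type u} [NormedAddCommGroup X] [NormedSpace ℝ X]
    (U : ℕ → ℝ → ℝ) (hU : IidU U) (q : ℝ) (hq : 1 < q) (n : ℕ) (J : X →ₗ[ℝ] L1I X) :
    ∃ T : X →ₗ[ℝ] L1I X, ∀ x : X,
      (T x : ℝ → X) =ᵐ[mu01] fun ω => par q (U (n + 1) ω) • (J x : ℝ → X) (U 0 ω) := by
  have hae : ∀ p : ℝ → Prop, (∀ᵐ y ∂mu01, p y) → ∀ᵐ ω ∂mu01, p (U 0 ω) := by
    intro p hp
    rw [← hU.law 0] at hp
    exact ae_of_ae_map (hU.meas 0).aemeasurable hp
  refine ⟨{ toFun := fun x => (ten_memLp U hU q hq n (J x)).toLp _, map_add' := ?_,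
            map_smul' := ?_ }, fun x => ?_⟩
  · intro x y
    rw [← MemLp.toLp_add]
    rw [MemLp.toLp_eq_toLp_iff]
    have h1 := hae _ (Lp.coeFn_add (J x) (J y))
    filter_upwards [h1] with ω hω
    rw [map_add]
    simp only [Pi.add_apply] at hω ⊢
    rw [hω, smul_add]
  · intro c x
    rw [RingHom.id_apply, ← MemLp.toLp_const_smul]
    rw [MemLp.toLp_eq_toLp_iff]
    have h1 := hae _ (Lp.coeFn_smul c (J x))
    filter_upwards [h1] with ω hω
    rw [map_smul]
    simp only [Pi.smul_apply] at hω ⊢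
    rw [hω, smul_comm]
  · exact MemLp.coeFn_toLp (ten_memLp U hU q hq n (J x))

end Pool.Agent.LPP
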