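import Pool.Agent.Helper547.LP.Defs

set_option autoImplicit false

open MeasureTheory ProbabilityTheory Filter Topology
open scoped ENNReal NNReal unitInterval

universe u v w

namespace Pool.Agent.LPP



theorem int_small (p q a : ℝ) (hq : 1 < q) (hp : q < p) (h0 : 0 ≤ a) (h1 : a ≤ 1) :
    ∫⁻ u, ENNReal.ofReal (if a * par q u ≤ 1 then (a * par q u) ^ p else 0) ∂mu01 ≤
      ENNReal.ofReal (p / (p - q) * a ^ q) := by
  have hq0 : 0 < q := by linarith
  have hp0 : 0 < p := by linarith
  have hpq : 0 < p - q := by linarith
  rcases h0.eq_or_lt with ha | ha
  · rw [← ha]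
    have : ∀ u, ENNReal.ofReal (if 0 * par q u ≤ 1 then (0 * par q u) ^ p else 0) = 0 := by
      intro u
      rw [zero_mul, if_pos zero_le_one, Real.zero_rpow hp0.ne', ENNReal.ofReal_zero]
    simp only [this]
    rw [lintegral_zero]
    exact bot_le
  · have haq : 0 < a ^ q := Real.rpow_pos_of_pos ha q
    have haq1 : a ^ q ≤ 1 := Real.rpow_le_one h0 h1 hq0.le
    have hres : (mu01 : Measure ℝ) = volume.restrict (Set.Ioc (0 : ℝ) 1) :=
      (Measure.restrict_congr_set Ioc_ae_eq_Icc).symm
    rw [hres]
    have hb : ∀ u ∈ Set.Ioc (0 : ℝ) 1,
        ENNReal.ofReal (if a * par q u ≤ 1 then (a * par q u) ^ p else 0) ≤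
        (Set.Icc (a ^ q) 1).indicator
          (fun u => ENNReal.ofReal (a ^ p * u ^ (-(p / q)))) u := by
      intro u hu
      have hpar : par q u = u ^ (-(1 / q)) := by
        unfold par
        rw [if_pos hu.1]
      split_ifs with hc
      · have hmem : u ∈ Set.Icc (a ^ q) 1 := by
          refine ⟨?_, hu.2⟩
          rw [hpar] at hc
          have h3 : a ≤ u ^ (1 / q) := by
            rw [Real.rpow_neg hu.1.le, ← div_eq_mul_inv, div_le_one (Real.rpow_pos_of_pos hu.1 _)] at hc
            exact hc
          have h4 : a ^ q ≤ (u ^ (1 / q)) ^ q := Real.rpow_le_rpow h0 h3 hq0.le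
          rw [← Real.rpow_mul hu.1.le, one_div, inv_mul_cancel₀ hq0.ne', Real.rpow_one] at h4
          exact h4
        rw [Set.indicator_of_mem hmem]
        apply ENNReal.ofReal_le_ofReal
        rw [hpar, Real.mul_rpow h0 (Real.rpow_nonneg hu.1.le _), ← Real.rpow_mul hu.1.le]
        apply le_of_eq
        congr 2
        ring
      · rw [ENNReal.ofReal_zero]
        exact bot_le
    calc ∫⁻ u in Set.Ioc (0 : ℝ) 1,
          ENNReal.ofReal (if a * par q u ≤ 1 then (a * par q u) ^ p else 0)
        ≤ ∫⁻ u in Set.Ioc (0 : ℝ) 1, (Set.Icc (a ^ q) 1).indicator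
          (fun u => ENNReal.ofReal (a ^ p * u ^ (-(p / q)))) u :=
          setLIntegral_mono' measurableSet_Ioc hb
      _ ≤ ∫⁻ u, (Set.Icc (a ^ q) 1).indicator
          (fun u => ENNReal.ofReal (a ^ p * u ^ (-(p / q)))) u := setLIntegral_le_lintegral _ _
      _ = ∫⁻ u in Set.Icc (a ^ q) 1, ENNReal.ofReal (a ^ p * u ^ (-(p / q))) := by
          rw [lintegral_indicator measurableSet_Icc]
      _ = ENNReal.ofReal (∫ u in Set.Icc (a ^ q) 1, a ^ p * u ^ (-(p / q))) := by
          rw [ofReal_integral_eq_lintegral_ofReal]
          · apply ContinuousOn.integrableOn_Icc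
            apply ContinuousOn.mul continuousOn_const
            intro u hu
            apply ContinuousAt.continuousWithinAt
            apply Real.continuousAt_rpow_const
            left
            exact (lt_of_lt_of_le haq hu.1).ne'
          · rw [Filter.EventuallyLE, ae_restrict_iff' measurableSet_Icc]
            apply Filter.Eventually.of_forall
            intro u hu
            have hu0 : 0 < u := lt_of_lt_of_le haq hu.1
            show (0 : ℝ) ≤ a ^ p * u ^ (-(p / q))
            positivity
      _ ≤ ENNReal.ofReal (p / (p - q) * a ^ q) := by
          apply ENNReal.ofReal_le_ofReal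
          rw [integral_Icc_eq_integral_Ioc, ← intervalIntegral.integral_of_le haq1,
            intervalIntegral.integral_const_mul, integral_rpow]
          · have hpq1 : 1 < p / q := by
              rw [lt_div_iff₀ hq0]
              linarith
            have e1 : (a ^ q) ^ (-(p / q) + 1) = a ^ (q - p) := by
              rw [← Real.rpow_mul h0]
              congr 1
              field_simp
              ring
            rw [Real.one_rpow, e1]
            have e2 : a ^ p * ((1 - a ^ (q - p)) / (-(p / q) + 1)) =
                (a ^ q - a ^ p) * (q / (p - q)) := by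
              have e3 : a ^ q = a ^ p * a ^ (q - p) := by
                rw [← Real.rpow_add ha]
                congr 1
                ring
              rw [e3]
              have hne : (-(p / q) + 1) ≠ 0 := by
                intro h
                linarith
              have hne2 : -p + q ≠ 0 := by
                intro h
                linarith
              field_simp
              ring
            rw [e2]
            have h5 : 0 ≤ a ^ p := Real.rpow_nonneg h0 p
            calc (a ^ q - a ^ p) * (q / (p - q)) ≤ a ^ q * (q / (p - q)) := by
                  apply mul_le_mul_of_nonneg_right (by linarith)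
                  positivity
              _ ≤ a ^ q * (p / (p - q)) := by
                  apply mul_le_mul_of_nonneg_left _ haq.le
                  apply div_le_div_of_nonneg_right hp.le hpq.le
              _ = p / (p - q) * a ^ q := by ring
          · right
            have hpq1 : 1 < p / q := by
              rw [lt_div_iff₀ hq0]
              linarith
            refine ⟨by intro h; linarith, ?_⟩
            rw [Set.uIcc_of_le haq1]
            intro h
            linarith [h.1]

end Pool.Agent.LPP
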