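import Pool.Agent.Helper547.LP.Defs
import Pool.Agent.Helper547.LP.P0
import Pool.Agent.Helper547.LP.P_int_small
import Pool.Agent.Helper547.LP.P_int_big

set_option autoImplicit false

open MeasureTheory ProbabilityTheory Filter Topology
open scoped ENNReal NNReal unitInterval

universe u v w

namespace Pool.Agent.LPP



theorem par_nonneg (q u : ℝ) : 0 ≤ par q u := by
  unfold par
  split_ifs with h
  · exact Real.rpow_nonneg h.le _
  · exact zero_le_one

theorem par_meas (q : ℝ) : Measurable (par q) := by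
  unfold par
  exact Measurable.ite measurableSet_Ioi (measurable_id.pow_const _) measurable_const

theorem sum_rpow_le {p : ℝ} (hp : 1 ≤ p) (F : Finset ℕ) (f : ℕ → ℝ) (hf : ∀ n, 0 ≤ f n) :
    ∑ n ∈ F, f n ^ p ≤ (∑ n ∈ F, f n) ^ p := by
  classical
  induction F using Finset.induction_on with
  | empty => simp [Real.zero_rpow (by linarith : p ≠ 0)]
  | insert m F hm ih =>
    rw [Finset.sum_insert hm, Finset.sum_insert hm]
    calc f m ^ p + ∑ n ∈ F, f n ^ p ≤ f m ^ p + (∑ n ∈ F, f n) ^ p := by linarith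
      _ ≤ _ := Real.add_rpow_le_rpow_add (hf m) (Finset.sum_nonneg fun n _ => hf n) hp

theorem ptwise {p : ℝ} (hp : 1 < p) (F : Finset ℕ) (y : ℕ → ℝ) (hy : ∀ n, 0 ≤ y n) :
    (∑ n ∈ F, y n ^ p) ^ (1 / p) ≤ 1 + ∑ n ∈ F, (if y n ≤ 1 then (y n) ^ p else 0) +
      ∑ n ∈ F, (if y n ≤ 1 then 0 else y n) := by
  have hp0 : 0 < p := by linarith
  set S := ∑ n ∈ F, (if y n ≤ 1 then (y n) ^ p else 0) with hS
  set B := ∑ n ∈ F, (if y n ≤ 1 then 0 else y n) with hB
  have hS0 : 0 ≤ S := Finset.sum_nonneg fun n _ => by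
    split_ifs
    · exact Real.rpow_nonneg (hy n) _
    · exact le_rfl
  have hB0 : 0 ≤ B := Finset.sum_nonneg fun n _ => by
    split_ifs
    · exact le_rfl
    · exact hy n
  have h1 : ∑ n ∈ F, y n ^ p = S + ∑ n ∈ F, (if y n ≤ 1 then 0 else y n) ^ p := by
    rw [hS, ← Finset.sum_add_distrib]
    refine Finset.sum_congr rfl fun n _ => ?_
    split_ifs
    · rw [Real.zero_rpow hp0.ne', add_zero]
    · rw [zero_add]
  have h2 : ∑ n ∈ F, (if y n ≤ 1 then 0 else y n) ^ p ≤ B ^ p :=
    sum_rpow_le hp.le F _ (fun n => by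
      split_ifs
      · exact le_rfl
      · exact hy n)
  have h3 : (1 + S) ≤ (1 + S) ^ p := by
    calc (1 + S) = (1 + S) ^ (1 : ℝ) := (Real.rpow_one _).symm
      _ ≤ (1 + S) ^ p := Real.rpow_le_rpow_of_exponent_le (by linarith) hp.le
  have h4 : (1 + S) ^ p + B ^ p ≤ (1 + S + B) ^ p :=
    Real.add_rpow_le_rpow_add (by linarith) hB0 hp.le
  have h5 : ∑ n ∈ F, y n ^ p ≤ (1 + S + B) ^ p := by
    rw [h1]; linarith
  calc (∑ n ∈ F, y n ^ p) ^ (1 / p) ≤ ((1 + S + B) ^ p) ^ (1 / p) :=
        Real.rpow_le_rpow (Finset.sum_nonneg fun n _ => Real.rpow_nonneg (hy n) _) h5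
          (by positivity)
    _ = 1 + S + B := by
        rw [← Real.rpow_mul (by linarith), mul_one_div_cancel hp0.ne', Real.rpow_one]

theorem upper (U : ℕ → ℝ → ℝ) (hU : IidU U) (p q : ℝ) (hq : 1 < q) (hp : q < p) (F : Finset ℕ)
    (a : ℕ → ℝ) (ha : ∀ n, 0 ≤ a n) :
    ∫⁻ ω, ENNReal.ofReal ((∑ n ∈ F, (a n * par q (U (n + 1) ω)) ^ p) ^ (1 / p)) ∂mu01 ≤
      ENNReal.ofReal ((1 + p / (p - q) + q / (q - 1)) * (∑ n ∈ F, (a n) ^ q) ^ (1 / q)) := by
  classical
  have hp1 : 1 < p := hq.trans hp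
  have hp0 : 0 < p := by linarith
  have hq0 : 0 < q := by linarith
  have hpm := prob01
  set Sq := ∑ n ∈ F, (a n) ^ q with hSq
  have hSq0 : 0 ≤ Sq := Finset.sum_nonneg fun n _ => Real.rpow_nonneg (ha n) _
  rcases hSq0.eq_or_lt with h0 | hpos
  · -- all zero
    have hz : ∀ n ∈ F, a n = 0 := by
      intro n hn
      have h1 := (Finset.sum_eq_zero_iff_of_nonneg (fun n _ => Real.rpow_nonneg (ha n) q)).mp h0.symm n hn
      exact (Real.rpow_eq_zero (ha n) hq0.ne').mp h1
    have : ∀ ω, ENNReal.ofReal ((∑ n ∈ F, (a n * par q (U (n + 1) ω)) ^ p) ^ (1 / p)) = 0 := by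
      intro ω
      have h1 : ∑ n ∈ F, (a n * par q (U (n + 1) ω)) ^ p = 0 := by
        refine Finset.sum_eq_zero fun n hn => ?_
        rw [hz n hn, zero_mul, Real.zero_rpow hp0.ne']
      rw [h1, Real.zero_rpow (by positivity), ENNReal.ofReal_zero]
    simp_rw [this]
    simp
  · set A := Sq ^ (1 / q) with hA
    have hApos : 0 < A := Real.rpow_pos_of_pos hpos _
    have hAq : A ^ q = Sq := by
      rw [hA, ← Real.rpow_mul hSq0, one_div_mul_cancel hq0.ne', Real.rpow_one]
    set b : ℕ → ℝ := fun n => a n / A with hb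
    have hb0 : ∀ n, 0 ≤ b n := fun n => div_nonneg (ha n) hApos.le
    have hbq : ∑ n ∈ F, b n ^ q = 1 := by
      have : ∀ n ∈ F, b n ^ q = a n ^ q / Sq := fun n _ => by
        rw [hb]; simp only; rw [Real.div_rpow (ha n) hApos.le, hAq]
      rw [Finset.sum_congr rfl this, ← Finset.sum_div, ← hSq, div_self hpos.ne']
    have hb1 : ∀ n ∈ F, b n ≤ 1 := by
      intro n hn
      have h1 : b n ^ q ≤ 1 := by
        rw [← hbq]
        exact Finset.single_le_sum (f := fun n => b n ^ q) (fun m _ => Real.rpow_nonneg (hb0 m) q) hn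
      by_contra hcon
      push Not at hcon
      have := Real.one_lt_rpow hcon hq0
      linarith
    have hpt : ∀ ω, ENNReal.ofReal ((∑ n ∈ F, (a n * par q (U (n + 1) ω)) ^ p) ^ (1 / p)) ≤
        ENNReal.ofReal A * (1 + ∑ n ∈ F, ENNReal.ofReal (if b n * par q (U (n + 1) ω) ≤ 1 then (b n * par q (U (n + 1) ω)) ^ p else 0) +
          ∑ n ∈ F, ENNReal.ofReal (if b n * par q (U (n + 1) ω) ≤ 1 then 0 else b n * par q (U (n + 1) ω))) := by
      intro ω
      have hy : ∀ n, 0 ≤ b n * par q (U (n + 1) ω) := fun n => mul_nonneg (hb0 n) (par_nonneg _ _)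
      have h1 : (∑ n ∈ F, (a n * par q (U (n + 1) ω)) ^ p) ^ (1 / p) =
          A * (∑ n ∈ F, (b n * par q (U (n + 1) ω)) ^ p) ^ (1 / p) := by
        have h2 : ∀ n ∈ F, (a n * par q (U (n + 1) ω)) ^ p = A ^ p * (b n * par q (U (n + 1) ω)) ^ p := by
          intro n _
          rw [← Real.mul_rpow hApos.le (hy n)]
          congr 1
          rw [hb]; simp only
          field_simp
        rw [Finset.sum_congr rfl h2, ← Finset.mul_sum, Real.mul_rpow (Real.rpow_nonneg hApos.le _)
          (Finset.sum_nonneg fun n _ => Real.rpow_nonneg (hy n) _), ← Real.rpow_mul hApos.le,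
          mul_one_div_cancel hp0.ne', Real.rpow_one]
      rw [h1, ENNReal.ofReal_mul hApos.le]
      gcongr
      have h3 := ptwise hp1 F (fun n => b n * par q (U (n + 1) ω)) hy
      refine (ENNReal.ofReal_le_ofReal h3).trans ?_
      have hs0 : ∀ n ∈ F, 0 ≤ (if b n * par q (U (n + 1) ω) ≤ 1 then (b n * par q (U (n + 1) ω)) ^ p else 0) := by
        intro n _
        split_ifs
        · exact Real.rpow_nonneg (hy n) _
        · exact le_rfl
      have hB0 : ∀ n ∈ F, 0 ≤ (if b n * par q (U (n + 1) ω) ≤ 1 then 0 else b n * par q (U (n + 1) ω)) := by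
        intro n _
        split_ifs
        · exact le_rfl
        · exact hy n
      rw [ENNReal.ofReal_add (add_nonneg zero_le_one (Finset.sum_nonneg hs0)) (Finset.sum_nonneg hB0),
        ENNReal.ofReal_add zero_le_one (Finset.sum_nonneg hs0), ENNReal.ofReal_one,
        ENNReal.ofReal_sum_of_nonneg hs0, ENNReal.ofReal_sum_of_nonneg hB0]
    refine (lintegral_mono hpt).trans ?_
    have hms : ∀ n, Measurable (fun u : ℝ => ENNReal.ofReal (if b n * par q u ≤ 1 then (b n * par q u) ^ p else 0)) := by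
      intro n
      refine ENNReal.measurable_ofReal.comp (Measurable.ite ?_ ?_ measurable_const)
      · exact measurableSet_le ((par_meas q).const_mul _) measurable_const
      · exact ((par_meas q).const_mul _).pow_const _
    have hmb : ∀ n, Measurable (fun u : ℝ => ENNReal.ofReal (if b n * par q u ≤ 1 then 0 else b n * par q u)) := by
      intro n
      refine ENNReal.measurable_ofReal.comp (Measurable.ite ?_ measurable_const ?_)
      · exact measurableSet_le ((par_meas q).const_mul _) measurable_const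
      · exact ((par_meas q).const_mul _)
    have hms' : ∀ n ∈ F, Measurable (fun ω : ℝ => ENNReal.ofReal (if b n * par q (U (n + 1) ω) ≤ 1 then (b n * par q (U (n + 1) ω)) ^ p else 0)) :=
      fun n _ => (hms n).comp (hU.meas (n + 1))
    have hmb' : ∀ n ∈ F, Measurable (fun ω : ℝ => ENNReal.ofReal (if b n * par q (U (n + 1) ω) ≤ 1 then 0 else b n * par q (U (n + 1) ω))) :=
      fun n _ => (hmb n).comp (hU.meas (n + 1))
    have hIs : ∀ n ∈ F, ∫⁻ ω, ENNReal.ofReal (if b n * par q (U (n + 1) ω) ≤ 1 then (b n * par q (U (n + 1) ω)) ^ p else 0) ∂mu01 ≤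
        ENNReal.ofReal (p / (p - q) * b n ^ q) := by
      intro n hn
      have h1 := lintegral_map (μ := mu01) (hms n) (hU.meas (n + 1))
      rw [hU.law] at h1
      rw [← h1]
      exact int_small p q (b n) hq hp (hb0 n) (hb1 n hn)
    have hIb : ∀ n ∈ F, ∫⁻ ω, ENNReal.ofReal (if b n * par q (U (n + 1) ω) ≤ 1 then 0 else b n * par q (U (n + 1) ω)) ∂mu01 ≤
        ENNReal.ofReal (q / (q - 1) * b n ^ q) := by
      intro n hn
      have h1 := lintegral_map (μ := mu01) (hmb n) (hU.meas (n + 1))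
      rw [hU.law] at h1
      rw [← h1]
      exact int_big q (b n) hq (hb0 n) (hb1 n hn)
    rw [lintegral_const_mul]
    · rw [lintegral_add_left, lintegral_add_left, lintegral_finset_sum _ hms', lintegral_finset_sum _ hmb']
      · have hc1 : 0 ≤ p / (p - q) := div_nonneg hp0.le (by linarith)
        have hc2 : 0 ≤ q / (q - 1) := div_nonneg hq0.le (by linarith)
        have e1 : ∑ n ∈ F, ENNReal.ofReal (p / (p - q) * b n ^ q) = ENNReal.ofReal (p / (p - q)) := by
          rw [← ENNReal.ofReal_sum_of_nonneg (fun n _ => mul_nonneg hc1 (Real.rpow_nonneg (hb0 n) _)),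
            ← Finset.mul_sum, hbq, mul_one]
        have e2 : ∑ n ∈ F, ENNReal.ofReal (q / (q - 1) * b n ^ q) = ENNReal.ofReal (q / (q - 1)) := by
          rw [← ENNReal.ofReal_sum_of_nonneg (fun n _ => mul_nonneg hc2 (Real.rpow_nonneg (hb0 n) _)),
            ← Finset.mul_sum, hbq, mul_one]
        have e3 : ∫⁻ _ : ℝ, (1 : ℝ≥0∞) ∂mu01 = 1 := by
          rw [lintegral_one]; exact hpm.measure_univ
        rw [e3, mul_comm ((1 + p / (p - q) + q / (q - 1))) A, ENNReal.ofReal_mul hApos.le,
          ENNReal.ofReal_add (by linarith) hc2, ENNReal.ofReal_add zero_le_one hc1, ENNReal.ofReal_one,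
          ← e1, ← e2]
        gcongr with n hn n hn
        · exact hIs n hn
        · exact hIb n hn
      · exact measurable_const
      · exact measurable_const.add (Finset.measurable_sum _ hms')
    · exact (measurable_const.add (Finset.measurable_sum _ hms')).add (Finset.measurable_sum _ hmb')

end Pool.Agent.LPP
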