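import Pool.Agent.Helper547.LP.Defs
import Pool.Agent.Helper547.LP.P0

import Pool.Agent.Helper547.LP.P_upper
import Pool.Agent.Helper547.LP.P_lower
import Pool.Agent.Helper547.LP.P_fub
import Pool.Agent.Helper547.LP.P_ten

set_option autoImplicit false

open MeasureTheory ProbabilityTheory Filter Topology
open scoped ENNReal NNReal unitInterval

universe u v w

namespace Pool.Agent.LPP



theorem core_sum {X : Type u} [NormedAddCommGroup X] (F : Finset ℕ) (f : ℕ → L1I X) :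
    ((∑ m ∈ F, f m : L1I X) : ℝ → X) =ᵐ[mu01] fun ω => ∑ m ∈ F, (f m : ℝ → X) ω := by
  classical
  induction F using Finset.induction_on with
  | empty =>
    simp only [Finset.sum_empty]
    exact Lp.coeFn_zero X 1 mu01
  | insert a s ha ih =>
    rw [Finset.sum_insert ha]
    filter_upwards [Lp.coeFn_add (f a) (∑ m ∈ s, f m), ih] with ω h1 h2
    rw [h1, Pi.add_apply, h2, Finset.sum_insert ha]

theorem par_pos (q u : ℝ) : 0 < par q u := by
  unfold par
  split_ifs with h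
  · positivity
  · exact one_pos

theorem core {X : Type u} [NormedAddCommGroup X] [NormedSpace ℝ X] (p q : ℝ) (hq : 1 < q)
    (hp : q < p) (J : ℕ → (X →ₗ[ℝ] L1I X)) (c C : ℝ) (hc : 0 < c) (hC : 0 < C)
    (hlow : ∀ (F : Finset ℕ) (x : ℕ → X), ∀ n ∈ F, c * ‖x n‖ ≤ ‖∑ m ∈ F, J m (x m)‖)
    (hup : ∀ (F : Finset ℕ) (x : ℕ → X),
      ‖∑ m ∈ F, J m (x m)‖ ≤ C * (∑ m ∈ F, ‖x m‖ ^ p) ^ (1 / p)) :
    ∃ T : ℕ → (X →ₗ[ℝ] L1I X), ∃ c' C' : ℝ, 0 < c' ∧ 0 < C' ∧
      ∀ (F : Finset ℕ) (x : ℕ → X),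
        c' * (∑ m ∈ F, ‖x m‖ ^ q) ^ (1 / q) ≤ ‖∑ m ∈ F, T m (x m)‖ ∧
        ‖∑ m ∈ F, T m (x m)‖ ≤ C' * (∑ m ∈ F, ‖x m‖ ^ q) ^ (1 / q) := by
  obtain ⟨U, hU⟩ := exists_iid
  choose T hT using fun n => ten U hU q hq n (J n)
  have hq0 : 0 < q := by linarith
  have hp0 : 0 < p := by linarith
  have hK : 0 < 1 + p / (p - q) + q / (q - 1) := by
    have h1 : 0 < p - q := by linarith
    have h2 : 0 < q - 1 := by linarith
    positivity
  refine ⟨T, c / 2, C * (1 + p / (p - q) + q / (q - 1)), by positivity, by positivity, fun F x => ?_⟩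
  have key : ‖∑ m ∈ F, T m (x m)‖ₑ =
      ∫⁻ ω, ‖∑ m ∈ F, J m (par q (U (m + 1) ω) • x m)‖ₑ ∂mu01 := by
    rw [Lp.enorm_def, eLpNorm_one_eq_lintegral_enorm]
    have h1 : ∀ᵐ ω ∂mu01, ((∑ m ∈ F, T m (x m) : L1I X) : ℝ → X) ω =
        ∑ m ∈ F, par q (U (m + 1) ω) • (J m (x m) : ℝ → X) (U 0 ω) := by
      have h2 : ∀ᵐ ω ∂mu01, ∀ m ∈ F, (T m (x m) : ℝ → X) ω =
          par q (U (m + 1) ω) • (J m (x m) : ℝ → X) (U 0 ω) := by
        rw [Finset.eventually_all]
        intro m _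
        exact hT m (x m)
      filter_upwards [core_sum F (fun m => T m (x m)), h2] with ω h3 h4
      rw [h3]
      exact Finset.sum_congr rfl h4
    rw [lintegral_congr_ae (h1.mono fun ω hω => by simp only [hω]; exact rfl),
      fub U hU q F (fun m => J m (x m))]
    refine lintegral_congr fun ω => ?_
    simp only [map_smul]
  have hnorm : ∀ m ω, ‖par q (U (m + 1) ω) • x m‖ = ‖x m‖ * par q (U (m + 1) ω) := by
    intro m ω
    rw [norm_smul, Real.norm_eq_abs, abs_of_pos (par_pos _ _), mul_comm]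
  have hS : 0 ≤ (∑ m ∈ F, ‖x m‖ ^ q) ^ (1 / q) := by positivity
  constructor
  · have h1 := lower U hU q hq F (fun n => c * ‖x n‖) (fun n => by positivity)
      (fun ω => ‖∑ m ∈ F, J m (par q (U (m + 1) ω) • x m)‖ₑ) (by
        intro n hn ω
        have h2 := hlow F (fun m => par q (U (m + 1) ω) • x m) n hn
        simp only [hnorm] at h2
        rw [← ofReal_norm]
        apply ENNReal.ofReal_le_ofReal
        linarith)
    rw [← key, ← ofReal_norm, ENNReal.ofReal_le_ofReal_iff (norm_nonneg _)] at h1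
    refine le_trans (le_of_eq ?_) h1
    have h3 : ∑ n ∈ F, (c * ‖x n‖) ^ q = c ^ q * ∑ n ∈ F, ‖x n‖ ^ q := by
      rw [Finset.mul_sum]
      refine Finset.sum_congr rfl fun n _ => ?_
      rw [Real.mul_rpow hc.le (norm_nonneg _)]
    have h4 : (∑ n ∈ F, (c * ‖x n‖) ^ q) ^ (1 / q) = c * (∑ n ∈ F, ‖x n‖ ^ q) ^ (1 / q) := by
      rw [h3, Real.mul_rpow (by positivity) (by positivity), ← Real.rpow_mul hc.le,
        mul_one_div_cancel hq0.ne', Real.rpow_one]
    simp only [h4]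
    ring
  · have h1 : ‖∑ m ∈ F, T m (x m)‖ₑ ≤ ENNReal.ofReal C *
        ENNReal.ofReal ((1 + p / (p - q) + q / (q - 1)) * (∑ n ∈ F, ‖x n‖ ^ q) ^ (1 / q)) := by
      rw [key]
      calc ∫⁻ ω, ‖∑ m ∈ F, J m (par q (U (m + 1) ω) • x m)‖ₑ ∂mu01
          ≤ ∫⁻ ω, ENNReal.ofReal C *
            ENNReal.ofReal ((∑ n ∈ F, (‖x n‖ * par q (U (n + 1) ω)) ^ p) ^ (1 / p)) ∂mu01 := by
            apply lintegral_mono
            intro ω
            have h2 := hup F (fun m => par q (U (m + 1) ω) • x m)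
            simp only [hnorm] at h2
            simp only
            rw [← ofReal_norm, ← ENNReal.ofReal_mul hC.le]
            exact ENNReal.ofReal_le_ofReal h2
        _ = ENNReal.ofReal C *
            ∫⁻ ω, ENNReal.ofReal ((∑ n ∈ F, (‖x n‖ * par q (U (n + 1) ω)) ^ p) ^ (1 / p)) ∂mu01 :=
            lintegral_const_mul' _ _ ENNReal.ofReal_ne_top
        _ ≤ _ := by
            gcongr
            exact upper U hU p q hq hp F (fun n => ‖x n‖) (fun n => norm_nonneg _)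
    rw [← ENNReal.ofReal_mul hC.le, ← ofReal_norm, ENNReal.ofReal_le_ofReal_iff (by positivity)] at h1
    linarith

end Pool.Agent.LPP
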