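import Pool.Agent.Helper547.LP.Defs

set_option autoImplicit false

open MeasureTheory ProbabilityTheory Filter Topology
open scoped ENNReal NNReal unitInterval

universe u v w

namespace Pool.Agent.LPP



theorem ext {X : Type u} [NormedAddCommGroup X] [NormedSpace ℝ X] {Z : Type v}
    [NormedAddCommGroup Z] [NormedSpace ℝ Z] [CompleteSpace Z] (q : ℝ≥0∞) [Fact (1 ≤ q)]
    (hq : q ≠ ⊤) (T : ℕ → (X →ₗ[ℝ] Z)) (c C : ℝ) (hc : 0 < c) (hC : 0 < C)
    (h : ∀ (F : Finset ℕ) (x : ℕ → X),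
        c * (∑ m ∈ F, ‖x m‖ ^ q.toReal) ^ (1 / q.toReal) ≤ ‖∑ m ∈ F, T m (x m)‖ ∧
        ‖∑ m ∈ F, T m (x m)‖ ≤ C * (∑ m ∈ F, ‖x m‖ ^ q.toReal) ^ (1 / q.toReal)) :
    EmbedsIn (lp (fun _ : ℕ => X) q) Z := by
  have hQ : 0 < q.toReal := by
    have h1 : (1:ℝ≥0∞) ≤ q := Fact.out
    exact ENNReal.toReal_pos (lt_of_lt_of_le one_pos h1).ne' hq
  have hsg : ∀ x : lp (fun _ : ℕ => X) q, Summable (fun m => ‖x m‖ ^ q.toReal) := fun x =>
    (lp.memℓp x).summable hQ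
  have hg0 : ∀ (x : lp (fun _ : ℕ => X) q) (F : Finset ℕ), 0 ≤ ∑ m ∈ F, ‖x m‖ ^ q.toReal :=
    fun x F => Finset.sum_nonneg fun m _ => Real.rpow_nonneg (norm_nonneg _) _
  have hsT : ∀ x : lp (fun _ : ℕ => X) q, Summable (fun m => T m (x m)) := by
    intro x
    rw [summable_iff_vanishing_norm]
    intro ε hε
    have hδ : 0 < (ε / C) ^ q.toReal := Real.rpow_pos_of_pos (div_pos hε hC) _
    obtain ⟨s, hs⟩ := summable_iff_vanishing_norm.mp (hsg x) _ hδ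
    refine ⟨s, fun t ht => ?_⟩
    have h1 := hs t ht
    rw [Real.norm_of_nonneg (hg0 x t)] at h1
    refine lt_of_le_of_lt (h t x).2 ?_
    have h2 : (∑ m ∈ t, ‖x m‖ ^ q.toReal) ^ (1 / q.toReal) < ((ε / C) ^ q.toReal) ^ (1 / q.toReal) :=
      Real.rpow_lt_rpow (hg0 x t) h1 (by positivity)
    rw [one_div, Real.rpow_rpow_inv (div_pos hε hC).le hQ.ne'] at h2
    rw [one_div]
    calc C * (∑ m ∈ t, ‖x m‖ ^ q.toReal) ^ (q.toReal)⁻¹ < C * (ε / C) :=
          mul_lt_mul_of_pos_left h2 hC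
      _ = ε := by field_simp
  let L : lp (fun _ : ℕ => X) q →ₗ[ℝ] Z :=
    { toFun := fun x => ∑' m, T m (x m)
      map_add' := fun x y => by
        rw [← (hsT x).tsum_add (hsT y)]
        refine tsum_congr fun m => ?_
        rw [lp.coeFn_add, Pi.add_apply, map_add]
      map_smul' := fun a x => by
        rw [RingHom.id_apply, ← (hsT x).tsum_const_smul]
        refine tsum_congr fun m => ?_
        rw [lp.coeFn_smul, Pi.smul_apply, map_smul] }
  have hL : ∀ x, L x = ∑' m, T m (x m) := fun x => rfl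
  have htend : ∀ x, Tendsto (fun F : Finset ℕ => ‖∑ m ∈ F, T m (x m)‖) atTop (𝓝 ‖L x‖) := by
    intro x
    rw [hL]
    exact (hsT x).hasSum.norm
  have hnorm : ∀ x : lp (fun _ : ℕ => X) q,
      Tendsto (fun F : Finset ℕ => (∑ m ∈ F, ‖x m‖ ^ q.toReal) ^ (1 / q.toReal)) atTop (𝓝 ‖x‖) := by
    intro x
    rw [lp.norm_eq_tsum_rpow hQ]
    exact Tendsto.rpow_const (hsg x).hasSum (Or.inr (by positivity))
  have hup : ∀ x, ‖L x‖ ≤ C * ‖x‖ := by
    intro x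
    exact le_of_tendsto_of_tendsto' (htend x) ((hnorm x).const_mul C) fun F => (h F x).2
  have hlow : ∀ x, c * ‖x‖ ≤ ‖L x‖ := by
    intro x
    exact le_of_tendsto_of_tendsto' ((hnorm x).const_mul c) (htend x) fun F => (h F x).1
  exact ⟨LinearMap.mkContinuous L C hup, c, hc, hlow⟩

end Pool.Agent.LPP
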