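import Pool.Agent.Helper547.LP.Defs

set_option autoImplicit false

open MeasureTheory ProbabilityTheory Filter Topology
open scoped ENNReal NNReal unitInterval

universe u v w

namespace Pool.Agent.LPP



theorem self_c0_norm_le {Z : Type*} [NormedAddCommGroup Z] (g : ZeroAtInftyContinuousMap ℕ Z)
    {C : ℝ} (hC : 0 ≤ C) : ‖g‖ ≤ C ↔ ∀ x, ‖g x‖ ≤ C := by
  rw [← ZeroAtInftyContinuousMap.norm_toBCF_eq_norm, BoundedContinuousFunction.norm_le hC]
  rfl

theorem self_c0_coe_le {Z : Type*} [NormedAddCommGroup Z] (g : ZeroAtInftyContinuousMap ℕ Z)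
    (x : ℕ) : ‖g x‖ ≤ ‖g‖ :=
  (self_c0_norm_le g (norm_nonneg g)).1 le_rfl x

theorem self_c0_fin {Z : Type*} [NormedAddCommGroup Z] (g : ZeroAtInftyContinuousMap ℕ Z)
    {ε : ℝ} (hε : 0 < ε) : {n : ℕ | ¬ ‖g n‖ < ε}.Finite := by
  have h := g.zero_at_infty'
  rw [Filter.cocompact_eq_cofinite] at h
  have h2 := (Metric.tendsto_nhds.1 h) ε hε
  rw [Filter.eventually_cofinite] at h2
  refine h2.subset ?_
  intro n hn
  simpa [dist_zero_right] using hn

noncomputable def self_c0_map {Y : Type*} [NormedAddCommGroup Y]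
    (f : ZeroAtInftyContinuousMap ℕ (ZeroAtInftyContinuousMap ℕ Y)) :
    ZeroAtInftyContinuousMap ℕ Y where
  toFun := fun k => f (Nat.unpair k).1 (Nat.unpair k).2
  continuous_toFun := continuous_of_discreteTopology
  zero_at_infty' := by
    rw [Filter.cocompact_eq_cofinite, Metric.tendsto_nhds]
    intro ε hε
    rw [Filter.eventually_cofinite]
    have hS := self_c0_fin f hε
    have hT := fun n => self_c0_fin (f n) hε
    have h1 : (⋃ n ∈ {n : ℕ | ¬ ‖f n‖ < ε}, ({n} : Set ℕ) ×ˢ {m : ℕ | ¬ ‖f n m‖ < ε}).Finite :=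
      hS.biUnion fun n _ => (Set.finite_singleton n).prod (hT n)
    have h2 := h1.preimage (f := fun k : ℕ => Nat.unpair k)
      (Nat.pairEquiv.symm.injective.injOn)
    refine h2.subset ?_
    intro k hk
    have hk' : ¬ ‖f (Nat.unpair k).1 (Nat.unpair k).2‖ < ε := by
      simpa [dist_zero_right] using hk
    simp only [Set.mem_preimage, Set.mem_iUnion]
    refine ⟨(Nat.unpair k).1, ?_, ?_⟩
    · intro hlt
      exact hk' (lt_of_le_of_lt (self_c0_coe_le _ _) hlt)
    · exact ⟨rfl, hk'⟩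

theorem self_c0_map_norm {Y : Type*} [NormedAddCommGroup Y]
    (f : ZeroAtInftyContinuousMap ℕ (ZeroAtInftyContinuousMap ℕ Y)) :
    ‖self_c0_map f‖ = ‖f‖ := by
  apply le_antisymm
  · rw [self_c0_norm_le _ (norm_nonneg f)]
    intro k
    exact (self_c0_coe_le (f (Nat.unpair k).1) (Nat.unpair k).2).trans (self_c0_coe_le f _)
  · rw [self_c0_norm_le _ (norm_nonneg _)]
    intro n
    rw [self_c0_norm_le _ (norm_nonneg _)]
    intro m
    have h := self_c0_coe_le (self_c0_map f) (Nat.pair n m)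
    have h2 : self_c0_map f (Nat.pair n m) = f n m := by
      show f (Nat.unpair (Nat.pair n m)).1 (Nat.unpair (Nat.pair n m)).2 = f n m
      rw [Nat.unpair_pair]
    rwa [h2] at h

theorem self_c0 (Y : Type u) [NormedAddCommGroup Y] [NormedSpace ℝ Y] [CompleteSpace Y] :
    EmbedsIn (ZeroAtInftyContinuousMap ℕ (ZeroAtInftyContinuousMap ℕ Y))
      (ZeroAtInftyContinuousMap ℕ Y) := by
  let T₀ : ZeroAtInftyContinuousMap ℕ (ZeroAtInftyContinuousMap ℕ Y) →ₗ[ℝ]
      ZeroAtInftyContinuousMap ℕ Y :=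
    { toFun := self_c0_map
      map_add' := fun f g => by
        ext k
        rfl
      map_smul' := fun r f => by
        ext k
        rfl }
  refine ⟨T₀.mkContinuous 1 ?_, 1, one_pos, ?_⟩
  · intro f
    show ‖self_c0_map f‖ ≤ 1 * ‖f‖
    rw [self_c0_map_norm, one_mul]
  · intro f
    show 1 * ‖f‖ ≤ ‖self_c0_map f‖
    rw [self_c0_map_norm, one_mul]

end Pool.Agent.LPP
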