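import Pool.Agent.Helper547.LP.Defs
import Pool.Agent.Helper547.LP.P_ext

set_option autoImplicit false

open MeasureTheory ProbabilityTheory Filter Topology
open scoped ENNReal NNReal unitInterval

universe u v w

namespace Pool.Agent.LPP



theorem self_lp (Y : Type u) [NormedAddCommGroup Y] [NormedSpace ℝ Y] [CompleteSpace Y]
    (p : ℝ≥0∞) [Fact (1 ≤ p)] (hp : p ≠ ⊤) :
    EmbedsIn (lp (fun _ : ℕ => lp (fun _ : ℕ => Y) p) p) (lp (fun _ : ℕ => Y) p) := by
  classical
  have hp1 : (1 : ℝ≥0∞) ≤ p := Fact.out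
  have hp0 : 0 < p.toReal := ENNReal.toReal_pos (lt_of_lt_of_le one_pos hp1).ne' hp
  let tf : ℕ → (ℕ → Y) → ℕ → Y :=
    fun n y k => if (Nat.unpair k).1 = n then y (Nat.unpair k).2 else 0
  have hs : ∀ (n : ℕ) (y : lp (fun _ : ℕ => Y) p),
      HasSum (fun k => ‖tf n y k‖ ^ p.toReal) (‖y‖ ^ p.toReal) := by
    intro n y
    have hi : Function.Injective (fun m : ℕ => Nat.pair n m) :=
      fun a b h => (Nat.pair_eq_pair.1 h).2
    rw [← hi.hasSum_iff]
    · have := lp.hasSum_norm hp0 y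
      convert this using 2 with m
      simp [tf]
    · intro k hk
      have : (Nat.unpair k).1 ≠ n := by
        intro h
        apply hk
        refine ⟨(Nat.unpair k).2, ?_⟩
        show Nat.pair n (Nat.unpair k).2 = k
        rw [← h, Nat.pair_unpair]
      simp [tf, this, Real.zero_rpow hp0.ne']
  let T : ℕ → (lp (fun _ : ℕ => Y) p →ₗ[ℝ] lp (fun _ : ℕ => Y) p) := fun n =>
    { toFun := fun y => ⟨tf n y, memℓp_gen (hs n y).summable⟩
      map_add' := by
        intro y z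
        apply lp.ext
        funext k
        simp only [lp.coeFn_add, Pi.add_apply, tf]
        split_ifs
        · rfl
        · simp
      map_smul' := by
        intro a y
        apply lp.ext
        funext k
        simp only [lp.coeFn_smul, Pi.smul_apply, tf, RingHom.id_apply]
        split_ifs
        · rfl
        · simp }
  have hT : ∀ n y k, (T n y : ∀ _ : ℕ, Y) k = tf n y k := fun n y k => rfl
  refine ext (X := lp (fun _ : ℕ => Y) p) (Z := lp (fun _ : ℕ => Y) p) p hp T 1 1 one_pos one_pos ?_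
  intro F x
  have hsum : ∀ k, ((∑ m ∈ F, T m (x m) : lp (fun _ : ℕ => Y) p) : ∀ _ : ℕ, Y) k =
      if (Nat.unpair k).1 ∈ F then (x (Nat.unpair k).1 : ∀ _ : ℕ, Y) (Nat.unpair k).2 else 0 := by
    intro k
    rw [lp.coeFn_sum, Finset.sum_apply]
    simp only [hT, tf]
    rw [Finset.sum_ite_eq]
  have hterm : ∀ k, ‖((∑ m ∈ F, T m (x m) : lp (fun _ : ℕ => Y) p) : ∀ _ : ℕ, Y) k‖ ^ p.toReal =
      ∑ m ∈ F, ‖tf m (x m) k‖ ^ p.toReal := by
    intro k
    rw [hsum k]
    have : ∀ m, ‖tf m (x m) k‖ ^ p.toReal =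
        if (Nat.unpair k).1 = m then ‖(x (Nat.unpair k).1 : ∀ _ : ℕ, Y) (Nat.unpair k).2‖ ^ p.toReal
        else 0 := by
      intro m
      by_cases h : (Nat.unpair k).1 = m
      · simp only [tf, if_pos h]
        rw [h]
      · simp only [tf, if_neg h, norm_zero, Real.zero_rpow hp0.ne']
    simp only [this]
    rw [Finset.sum_ite_eq]
    split_ifs
    · rfl
    · simp [Real.zero_rpow hp0.ne']
  have h1 : HasSum (fun k => ‖((∑ m ∈ F, T m (x m) : lp (fun _ : ℕ => Y) p) : ∀ _ : ℕ, Y) k‖ ^ p.toReal)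
      (∑ m ∈ F, ‖x m‖ ^ p.toReal) := by
    have := hasSum_sum (s := F) (fun m _ => hs m (x m))
    convert this using 2 with k
    exact hterm k
  have h2 := lp.hasSum_norm hp0 (∑ m ∈ F, T m (x m))
  have h3 : ‖∑ m ∈ F, T m (x m)‖ ^ p.toReal = ∑ m ∈ F, ‖x m‖ ^ p.toReal := h2.unique h1
  have h4 : (∑ m ∈ F, ‖x m‖ ^ p.toReal) ^ (1 / p.toReal) = ‖∑ m ∈ F, T m (x m)‖ := by
    rw [← h3, ← Real.rpow_mul (norm_nonneg _), mul_one_div_cancel hp0.ne', Real.rpow_one]
  rw [h4]
  constructor <;> simp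

end Pool.Agent.LPP
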