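import Pool.Agent.Helper547.LP.Defs

set_option autoImplicit false

open MeasureTheory ProbabilityTheory Filter Topology
open scoped ENNReal NNReal unitInterval

universe u v w

namespace Pool.Agent.LPP



/-- the coordinate embedding into the space of null sequences -/
noncomputable def split_c0_E {X : Type u} [NormedAddCommGroup X] [NormedSpace ℝ X] (n : ℕ) :
    X →ₗ[ℝ] ZeroAtInftyContinuousMap ℕ X where
  toFun x :=
    { toFun := fun m => if m = n then x else 0
      continuous_toFun := continuous_of_discreteTopology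
      zero_at_infty' := by
        have h : (fun m : ℕ => (0 : X)) =ᶠ[cocompact ℕ] fun m => if m = n then x else 0 := by
          rw [cocompact_eq_cofinite]
          refine (Set.finite_singleton n).subset ?_
          intro m hm
          by_contra hne
          apply hm
          show (0 : X) = if m = n then x else 0
          have hne' : m ≠ n := fun h => hne (by rw [h]; exact Set.mem_singleton n)
          rw [if_neg hne']
        exact Tendsto.congr' h tendsto_const_nhds }
  map_add' x y := by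
    ext m
    show (if m = n then x + y else 0) = (if m = n then x else 0) + (if m = n then y else 0)
    split_ifs <;> simp
  map_smul' r x := by
    ext m
    show (if m = n then r • x else 0) = r • (if m = n then x else 0)
    split_ifs <;> simp

theorem split_c0_E_apply {X : Type u} [NormedAddCommGroup X] [NormedSpace ℝ X] (n k : ℕ) (x : X) :
    split_c0_E n x k = if k = n then x else 0 := rfl

theorem split_c0_sum {X : Type u} [NormedAddCommGroup X] [NormedSpace ℝ X] (F : Finset ℕ)
    (x : ℕ → X) (k : ℕ) :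
    (∑ m ∈ F, split_c0_E m (x m)) k = if k ∈ F then x k else 0 := by
  classical
  induction F using Finset.induction_on with
  | empty => simp
  | insert a F ha ih =>
    rw [Finset.sum_insert ha, ZeroAtInftyContinuousMap.add_apply, ih, split_c0_E_apply]
    by_cases h : k = a
    · subst h
      simp [ha]
    · simp [h]

theorem split_c0 {X : Type u} [NormedAddCommGroup X] [NormedSpace ℝ X] {Z : Type v}
    [NormedAddCommGroup Z] [NormedSpace ℝ Z] (p : ℝ) (hp : 1 ≤ p)
    (h : EmbedsIn (ZeroAtInftyContinuousMap ℕ X) Z) :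
    ∃ (J : ℕ → (X →ₗ[ℝ] Z)) (c C : ℝ), 0 < c ∧ 0 < C ∧
      (∀ (F : Finset ℕ) (x : ℕ → X), ∀ n ∈ F, c * ‖x n‖ ≤ ‖∑ m ∈ F, J m (x m)‖) ∧
      (∀ (F : Finset ℕ) (x : ℕ → X),
        ‖∑ m ∈ F, J m (x m)‖ ≤ C * (∑ m ∈ F, ‖x m‖ ^ p) ^ (1 / p)) := by
  classical
  obtain ⟨T, c, hc, hT⟩ := h
  refine ⟨fun n => (T : ZeroAtInftyContinuousMap ℕ X →ₗ[ℝ] Z) ∘ₗ split_c0_E n, c, ‖T‖ + 1, hc,
    by positivity, ?_, ?_⟩
  · intro F x n hn
    have e : ∑ m ∈ F, ((T : ZeroAtInftyContinuousMap ℕ X →ₗ[ℝ] Z) ∘ₗ split_c0_E m) (x m)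
        = T (∑ m ∈ F, split_c0_E m (x m)) := by
      rw [map_sum]; rfl
    rw [e]
    refine le_trans ?_ (hT _)
    apply mul_le_mul_of_nonneg_left _ hc.le
    have h1 := BoundedContinuousFunction.norm_coe_le_norm
      (ZeroAtInftyContinuousMap.toBCF (∑ m ∈ F, split_c0_E m (x m))) n
    rw [ZeroAtInftyContinuousMap.norm_toBCF_eq_norm] at h1
    have h2 : (ZeroAtInftyContinuousMap.toBCF (∑ m ∈ F, split_c0_E m (x m))) n = x n := by
      have := split_c0_sum F x n
      rw [if_pos hn] at this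
      exact this
    rwa [h2] at h1
  · intro F x
    have e : ∑ m ∈ F, ((T : ZeroAtInftyContinuousMap ℕ X →ₗ[ℝ] Z) ∘ₗ split_c0_E m) (x m)
        = T (∑ m ∈ F, split_c0_E m (x m)) := by
      rw [map_sum]; rfl
    rw [e]
    have hS0 : 0 ≤ ∑ m ∈ F, ‖x m‖ ^ p :=
      Finset.sum_nonneg (fun m _ => Real.rpow_nonneg (norm_nonneg _) _)
    have hD : 0 ≤ (∑ m ∈ F, ‖x m‖ ^ p) ^ (1 / p) := Real.rpow_nonneg hS0 _
    have h1 : ‖∑ m ∈ F, split_c0_E m (x m)‖ ≤ (∑ m ∈ F, ‖x m‖ ^ p) ^ (1 / p) := by
      rw [← ZeroAtInftyContinuousMap.norm_toBCF_eq_norm]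
      rw [BoundedContinuousFunction.norm_le hD]
      intro k
      have h2 : (ZeroAtInftyContinuousMap.toBCF (∑ m ∈ F, split_c0_E m (x m))) k
          = if k ∈ F then x k else 0 := split_c0_sum F x k
      rw [h2]
      split_ifs with hk
      · have hp0 : p ≠ 0 := by linarith
        have h3 : ‖x k‖ = (‖x k‖ ^ p) ^ (1 / p) := by
          rw [one_div, Real.rpow_rpow_inv (norm_nonneg _) hp0]
        rw [h3]
        apply Real.rpow_le_rpow (Real.rpow_nonneg (norm_nonneg _) _) _ (by positivity)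
        exact Finset.single_le_sum (f := fun m => ‖x m‖ ^ p)
          (fun m _ => Real.rpow_nonneg (norm_nonneg _) _) hk
      · rw [norm_zero]; exact hD
    calc ‖T (∑ m ∈ F, split_c0_E m (x m))‖ ≤ ‖T‖ * ‖∑ m ∈ F, split_c0_E m (x m)‖ := T.le_opNorm _
      _ ≤ (‖T‖ + 1) * (∑ m ∈ F, ‖x m‖ ^ p) ^ (1 / p) :=
        mul_le_mul (by linarith) h1 (norm_nonneg _) (by positivity)

end Pool.Agent.LPP
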