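import Pool.Agent.Helper547.LP.Defs

set_option autoImplicit false

open MeasureTheory ProbabilityTheory Filter Topology
open scoped ENNReal NNReal unitInterval

universe u v w

namespace Pool.Agent.LPP



theorem split_lp {X : Type u} [NormedAddCommGroup X] [NormedSpace ℝ X] {Z : Type v}
    [NormedAddCommGroup Z] [NormedSpace ℝ Z] (p : ℝ≥0∞) [Fact (1 ≤ p)]
    (hp : p ≠ ⊤) (h : EmbedsIn (lp (fun _ : ℕ => X) p) Z) :
    ∃ (J : ℕ → (X →ₗ[ℝ] Z)) (c C : ℝ), 0 < c ∧ 0 < C ∧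
      (∀ (F : Finset ℕ) (x : ℕ → X), ∀ n ∈ F, c * ‖x n‖ ≤ ‖∑ m ∈ F, J m (x m)‖) ∧
      (∀ (F : Finset ℕ) (x : ℕ → X),
        ‖∑ m ∈ F, J m (x m)‖ ≤ C * (∑ m ∈ F, ‖x m‖ ^ p.toReal) ^ (1 / p.toReal)) := by
  obtain ⟨T, c, hc, hT⟩ := h
  have hp1 : (1 : ℝ≥0∞) ≤ p := Fact.out
  have hp0 : p ≠ 0 := fun h0 => by rw [h0] at hp1; exact absurd hp1 (by simp)
  have hpr : 0 < p.toReal := ENNReal.toReal_pos hp0 hp
  have hsum : ∀ (F : Finset ℕ) (x : ℕ → X),
      ∑ m ∈ F, T (lp.single (E := fun _ : ℕ => X) p m (x m)) =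
        T (∑ m ∈ F, lp.single (E := fun _ : ℕ => X) p m (x m)) := by
    intro F x
    rw [map_sum]
  refine ⟨fun n => (T : lp (fun _ : ℕ => X) p →ₗ[ℝ] Z).comp
      (lp.lsingle (𝕜 := ℝ) (E := fun _ : ℕ => X) p n), c, ‖T‖ + 1, hc, by positivity, ?_, ?_⟩
  · intro F x n hn
    have e : ∑ m ∈ F, ((T : lp (fun _ : ℕ => X) p →ₗ[ℝ] Z).comp
        (lp.lsingle (𝕜 := ℝ) (E := fun _ : ℕ => X) p m)) (x m) =
        T (∑ m ∈ F, lp.single (E := fun _ : ℕ => X) p m (x m)) := by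
      rw [← hsum]
      rfl
    rw [e]
    refine le_trans ?_ (hT _)
    refine mul_le_mul_of_nonneg_left ?_ hc.le
    have h1 := lp.norm_apply_le_norm hp0 (∑ m ∈ F, lp.single (E := fun _ : ℕ => X) p m (x m)) n
    have h2 : (∑ m ∈ F, lp.single (E := fun _ : ℕ => X) p m (x m)) n = x n := by
      rw [lp.coeFn_sum, Finset.sum_apply]
      rw [Finset.sum_eq_single n]
      · exact lp.single_apply_self (E := fun _ : ℕ => X) p n (x n)
      · intro m _ hm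
        exact lp.single_apply_ne (E := fun _ : ℕ => X) p m (x m) (Ne.symm hm)
      · intro h; exact absurd hn h
    rw [h2] at h1
    exact h1
  · intro F x
    have e : ∑ m ∈ F, ((T : lp (fun _ : ℕ => X) p →ₗ[ℝ] Z).comp
        (lp.lsingle (𝕜 := ℝ) (E := fun _ : ℕ => X) p m)) (x m) =
        T (∑ m ∈ F, lp.single (E := fun _ : ℕ => X) p m (x m)) := by
      rw [← hsum]
      rfl
    rw [e]
    have h1 := T.le_opNorm (∑ m ∈ F, lp.single (E := fun _ : ℕ => X) p m (x m))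
    have h2 := lp.norm_sum_single hpr (E := fun _ : ℕ => X) x F
    have h3 : ‖∑ m ∈ F, lp.single (E := fun _ : ℕ => X) p m (x m)‖ =
        (∑ m ∈ F, ‖x m‖ ^ p.toReal) ^ (1 / p.toReal) := by
      rw [← h2, one_div, Real.rpow_rpow_inv (norm_nonneg _) hpr.ne']
    rw [← h3]
    refine h1.trans ?_
    refine mul_le_mul_of_nonneg_right ?_ (norm_nonneg _)
    linarith

end Pool.Agent.LPP
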